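import Mathlib
import Pool.Agent.Lib.MP_95ba65_al.LargeMain

set_option autoImplicit false

namespace Pool.Agent.Results.MP_95ba65_al.LargePrimes

open Pool.Agent.Lib.MP_95ba65_al.Large

/-- For every `n` there is a bound `K n` such that a finite nilpotent group with a
fixed-point-free automorphism of order `n`, all of whose prime divisors exceed `K n`, has derived
length at most `n * (2 ^ (n - 1) + 1)`. -/
theorem result : ∃ K : ℕ → ℕ, ∀ (G : Type) [Group G] [Finite G] [Group.IsNilpotent G]
    (φ : MulAut G), (∀ g : G, φ g = g → g = 1) →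
    (∀ p : ℕ, p.Prime → p ∣ Nat.card G → K (orderOf φ) < p) →
    derivedSeries G (orderOf φ * (2 ^ (orderOf φ - 1) + 1)) = ⊥ := by
  choose K hK using fun m : ℕ => large_primes (m + 1)
  refine ⟨fun n => K (n - 1), fun G _ _ _ φ hfpf hp => ?_⟩
  obtain ⟨m, hm⟩ := Nat.exists_eq_succ_of_ne_zero (orderOf_pos φ).ne'
  have h1 : ∀ (t : ℕ) (x : G), (φ : G →* G)^[t] x = (φ ^ t) x := by
    intro t x
    induction t with
    | zero => rfl
    | succ t ih => rw [Function.iterate_succ_apply', ih, pow_succ']; rfl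
  rw [hm] at hp ⊢
  refine hK m G (φ : G →* G) (fun x => ?_) hfpf hp
  rw [h1, ← Nat.succ_eq_add_one, ← hm, pow_orderOf_eq_one]
  rfl

end Pool.Agent.Results.MP_95ba65_al.LargePrimes
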