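import Mathlib
import Pool.Agent.Lib.MP_95ba65_al.SixMain

set_option autoImplicit false

namespace Pool.Agent.Results.MP_95ba65_al.OrderSix

open Pool.Agent.Lib.MP_95ba65_al.Six

/-- A finite nilpotent group with a fixed-point-free automorphism of order six coprime to the
order of the group has derived length at most ten. -/
theorem result (G : Type) [Group G] [Finite G] [Group.IsNilpotent G] (φ : MulAut G)
    (h6 : orderOf φ = 6) (hco : Nat.Coprime (orderOf φ) (Nat.card G))
    (hfpf : ∀ g : G, φ g = g → g = 1) : derivedSeries G 10 = ⊥ := by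
  rw [h6] at hco
  obtain ⟨v, hv⟩ : ∃ v, v * 6 ≡ 1 [MOD Nat.card G] := by
    have : NeZero (Nat.card G) := ⟨Nat.card_pos.ne'⟩
    obtain ⟨u, hu⟩ := ((ZMod.isUnit_iff_coprime 6 (Nat.card G)).2 hco).exists_left_inv
    refine ⟨u.val, (ZMod.natCast_eq_natCast_iff _ _ _).1 ?_⟩
    rw [Nat.cast_mul, ZMod.natCast_zmod_val, hu, Nat.cast_one]
  have hinj : Function.Injective fun y : G => y⁻¹ * φ y := by
    intro a b hab
    have h1 : φ (b * a⁻¹) = b * a⁻¹ := by
      have h2 : a⁻¹ * φ a = b⁻¹ * φ b := hab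
      rw [map_mul, map_inv]
      calc φ b * (φ a)⁻¹ = b * (b⁻¹ * φ b) * (φ a)⁻¹ := by group
        _ = b * (a⁻¹ * φ a) * (φ a)⁻¹ := by rw [h2]
        _ = b * a⁻¹ := by group
    exact (mul_inv_eq_one.1 (hfpf _ h1)).symm
  have hf : Act6 (φ : G →* G) (Nat.card G) v := by
    refine ⟨fun x => pow_card_eq_one', hv, fun x => ?_⟩
    obtain ⟨y, rfl⟩ := Finite.surjective_of_injective hinj x
    have h1 : φ (φ (φ (φ (φ (φ y))))) = y := by
      have h2 : φ ^ 6 = 1 := h6 ▸ pow_orderOf_eq_one φ
      exact DFunLike.congr_fun h2 y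
    simp only [Function.iterate_succ, Function.iterate_zero, Function.comp_apply, id_eq,
      MonoidHom.coe_coe, map_mul, map_inv, h1]
    group
  exact hf.main

end Pool.Agent.Results.MP_95ba65_al.OrderSix
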