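import Mathlib
import Pool.Agent.Lib.MP_95ba65_al.Core
import Pool.Agent.Lib.MP_95ba65_al.Omega

set_option autoImplicit false

namespace Pool.Agent.Results.MP_95ba65_al.SplitPrimes

open Pool.Agent.Lib.MP_95ba65_al

/-- A finite nilpotent group with a fixed-point-free automorphism of order `n`, all of whose
prime divisors are congruent to `1` modulo `n`, has derived length at most `2 ^ (n - 1) - 1`. -/
theorem result (G : Type) [Group G] [Finite G] [Group.IsNilpotent G] (φ : MulAut G)
    (hsplit : ∀ q : ℕ, q.Prime → q ∣ Nat.card G → q ≡ 1 [MOD orderOf φ])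
    (hfpf : ∀ g : G, φ g = g → g = 1) :
    derivedSeries G (2 ^ (orderOf φ - 1) - 1) = ⊥ := by
  have hn : 0 < orderOf φ := orderOf_pos φ
  have hE0 : Nat.card G ≠ 0 := Nat.card_pos.ne'
  have hco : Nat.Coprime (orderOf φ) (Nat.card G) := by
    apply Nat.coprime_of_dvd
    intro q hq hqn hqE
    have h1 : q ≡ 1 [MOD q] := (hsplit q hq hqE).of_dvd hqn
    have h2 : q ∣ 1 := (Nat.modEq_zero_iff_dvd.1 (h1.symm.trans (Nat.modEq_zero_iff_dvd.2 dvd_rfl)))
    exact hq.ne_one (Nat.dvd_one.1 h2)
  obtain ⟨w, v, h⟩ := exists_num hn hE0 hsplit hco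
  have hf : Act (orderOf φ) (Nat.card G) (φ : G →* G) := by
    refine ⟨fun x => pow_card_eq_one', fun x => ?_⟩
    have h1 : ∀ t : ℕ, (φ : G →* G)^[t] x = (φ ^ t) x := by
      intro t
      induction t with
      | zero => rfl
      | succ t ih => rw [Function.iterate_succ_apply', ih, pow_succ']; rfl
    rw [h1, pow_orderOf_eq_one]
    rfl
  exact kreknin_group h hf hfpf

end Pool.Agent.Results.MP_95ba65_al.SplitPrimes
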